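import Mathlib
import Pool.Agent.H524R3.ExpDefs
import Pool.Agent.W719.AEC.Defs
import Pool.Agent.W719.AEC.Main

set_option autoImplicit false

open H524R3 W719AEC

namespace Pool.Agent.Results.MP_1d444f_gt.AllSUN

/-- The asymptotic expansion conjecture fails for G = SU(N) for every N ≥ 2, already for one and the same
closed oriented 3-manifold M: the graph manifold of the plumbing graph doubleEdge, that is, the union of two
copies of F x S^1, F the torus with two open discs removed, glued along both boundary tori by exchanging the
fibre and the boundary of the base. With r = k + N and for every choice of phases ω k of absolute value 1 (in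
particular in every 2-framing of M) the sequence of the level k invariants ω k * Z_k(M) has no asymptotic
expansion ∑_j exp (2 π i r c_j) r^(d_j) b_j (1 + ∑_l a_{j,l} r^(-l/2)), with any finite family of real phases
c_j and real exponents d_j. (Here Z_k(M) = ∑_{λ,μ} |S_{λμ}|^2 / (S_{0λ}^2 S_{0μ}^2), the sum over the pairs of
dominant weights of level k; it is O (r^(N^2+N-2) (log r)^(2N-2)), and Z_k(M) / r^(N^2+N-2) tends to
infinity.) -/
theorem result (N : ℕ) (hN : 2 ≤ N) (ω : ℕ → ℂ) (hω : ∀ k, ‖ω k‖ = 1) :
    ¬ HasExpansion N (fun k => ω k * doubleEdge.Z N (k + N)) :=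
  W719AEC.main N hN ω hω

end Pool.Agent.Results.MP_1d444f_gt.AllSUN
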